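import Pool.Agent.H48.RN.Stmts3

/-!
# Project RN: CL2, the discriminant in characteristic 2
-/

set_option autoImplicit false
set_option linter.unusedSectionVars false

namespace Pool.RN

open Polynomial

/-- Dividing by the greatest common divisor. -/
theorem CL2_gcd {F : Type} [Field F] {a w : F[X]} (ha : a ≠ 0) :
    ∃ d a' w' : F[X], d ≠ 0 ∧ IsCoprime a' w' ∧ a = d * a' ∧ w = d * w' := by
  classical
  obtain ⟨a', h1⟩ := EuclideanDomain.gcd_dvd_left a w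
  obtain ⟨w', h2⟩ := EuclideanDomain.gcd_dvd_right a w
  have h3 := EuclideanDomain.gcd_eq_gcd_ab a w
  have hd : EuclideanDomain.gcd a w ≠ 0 := fun h => ha (EuclideanDomain.gcd_eq_zero_iff.1 h).1
  generalize EuclideanDomain.gcd a w = d at h1 h2 h3 hd
  generalize EuclideanDomain.gcdA a w = x at h3
  generalize EuclideanDomain.gcdB a w = y at h3
  refine ⟨d, a', w', hd, ⟨x, y, ?_⟩, h1, h2⟩
  apply mul_left_cancel₀ hd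
  calc d * (x * a' + y * w') = (d * a') * x + (d * w') * y := by ring
    _ = a * x + w * y := by rw [← h1, ← h2]
    _ = d * 1 := by rw [← h3, mul_one]

theorem CL2_dvd {F : Type} [Field F] {a w c : F[X]} (ha : a ≠ 0)
    (h : a ^ 2 ∣ w ^ 2 + a * c * w) : a ∣ w := by
  obtain ⟨d, a', w', hd0, hu, h1, h2⟩ := CL2_gcd (w := w) ha
  have h3 : a' ^ 2 ∣ w' ^ 2 + a' * c * w' := by
    have h4 : d ^ 2 * a' ^ 2 ∣ d ^ 2 * (w' ^ 2 + a' * c * w') := by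
      have h5 : d ^ 2 * a' ^ 2 = a ^ 2 := by rw [h1]; ring
      have h6 : d ^ 2 * (w' ^ 2 + a' * c * w') = w ^ 2 + a * c * w := by
        rw [h1, h2]
        ring
      rw [h5, h6]
      exact h
    exact (mul_dvd_mul_iff_left (pow_ne_zero 2 hd0)).1 h4
  have h7 : a' ∣ w' ^ 2 := by
    have h8 : a' ∣ w' ^ 2 + a' * c * w' := (dvd_pow_self a' two_ne_zero).trans h3
    rw [mul_assoc] at h8
    exact (dvd_add_left (Dvd.intro _ rfl)).1 h8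
  have h9 : IsUnit a' := (hu.pow_right (n := 2)).isUnit_of_dvd' (dvd_refl _) h7
  rw [h1, h2]
  exact mul_dvd_mul_left d (h9.dvd)

theorem s_CL2 (F : Type) [Field F] [Fintype F] : S_CL2 F := by
  intro h2F n a₁ a₂ a₃ hn hd1 hd2 hd3
  have h2 : (2 : F[X]) = 0 := by
    have := congrArg (C : F → F[X]) h2F
    rwa [map_ofNat, map_zero] at this
  have ha : a₁ ≠ 0 := by
    rintro rfl
    simp at hd1
    omega
  have hΔ : ∀ a₄ a₆ : F[X], (WeierstrassCurve.mk a₁ a₂ a₃ a₄ a₆).Δ = a₁ ^ 6 * a₆ +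
      (a₁ ^ 5 * a₃ * a₄ + a₁ ^ 4 * a₂ * a₃ ^ 2 + a₁ ^ 4 * a₄ ^ 2 + a₁ ^ 3 * a₃ ^ 3 + a₃ ^ 4) := by
    intro a₄ a₆
    simp only [WeierstrassCurve.Δ, WeierstrassCurve.b₂, WeierstrassCurve.b₄, WeierstrassCurve.b₆,
      WeierstrassCurve.b₈]
    linear_combination (-a₁^6*a₆ -a₁^4*a₂*a₃^2 -6*a₁^4*a₂*a₆ +4*a₁^3*a₂*a₃*a₄ +18*a₁^3*a₃*a₆
      -4*a₁^2*a₂^2*a₃^2 -24*a₁^2*a₂^2*a₆ +4*a₁^2*a₂*a₄^2 -15*a₁^2*a₃^2*a₄ +36*a₁^2*a₄*a₆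
      +8*a₁*a₂^2*a₃*a₄ +18*a₁*a₂*a₃^3 +72*a₁*a₂*a₃*a₆ -48*a₁*a₃*a₄^2 -8*a₂^3*a₃^2 -32*a₂^3*a₆
      +8*a₂^2*a₄^2 +36*a₂*a₃^2*a₄ +144*a₂*a₄*a₆ -14*a₃^4 -108*a₃^2*a₆ -32*a₄^3 -216*a₆^2) * h2
  have hcop : ∀ a₄ : F[X], IsCoprime (a₁ ^ 5 * a₃ * a₄ + a₁ ^ 4 * a₂ * a₃ ^ 2 + a₁ ^ 4 * a₄ ^ 2 +
      a₁ ^ 3 * a₃ ^ 3 + a₃ ^ 4) a₁ ↔ IsCoprime a₁ a₃ := by
    intro a₄
    have h3 : a₁ ^ 5 * a₃ * a₄ + a₁ ^ 4 * a₂ * a₃ ^ 2 + a₁ ^ 4 * a₄ ^ 2 +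
      a₁ ^ 3 * a₃ ^ 3 + a₃ ^ 4 = a₃ ^ 4 + a₁ * (a₁ ^ 4 * a₃ * a₄ + a₁ ^ 3 * a₂ * a₃ ^ 2 +
        a₁ ^ 3 * a₄ ^ 2 + a₁ ^ 2 * a₃ ^ 3) := by ring
    rw [h3, IsCoprime.add_mul_left_left_iff, IsCoprime.pow_left_iff (by norm_num : 0 < 4)]
    exact isCoprime_comm
  have hdiff : ∀ a₄ a₄' : F[X],
      (a₁ ^ 5 * a₃ * a₄ + a₁ ^ 4 * a₂ * a₃ ^ 2 + a₁ ^ 4 * a₄ ^ 2 + a₁ ^ 3 * a₃ ^ 3 + a₃ ^ 4) -
      (a₁ ^ 5 * a₃ * a₄' + a₁ ^ 4 * a₂ * a₃ ^ 2 + a₁ ^ 4 * a₄' ^ 2 + a₁ ^ 3 * a₃ ^ 3 + a₃ ^ 4) =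
      a₁ ^ 4 * ((a₄ - a₄') ^ 2 + a₁ * a₃ * (a₄ - a₄')) := by
    intro a₄ a₄'
    linear_combination (-a₁ ^ 4 * (a₄' ^ 2 - a₄ * a₄')) * h2
  refine ⟨fun a₄ => a₁ ^ 5 * a₃ * a₄ + a₁ ^ 4 * a₂ * a₃ ^ 2 + a₁ ^ 4 * a₄ ^ 2 + a₁ ^ 3 * a₃ ^ 3 +
    a₃ ^ 4, ?_, hΔ, hcop, ?_, ?_, ?_⟩
  · intro a₄ ha4
    rw [mem_Pol] at ha4
    have e1 : ∀ k, (a₁ ^ k).natDegree ≤ k * n := fun k => natDegree_pow_le_of_le k hd1.le
    have e3 : ∀ k, (a₃ ^ k).natDegree ≤ k * (3 * n) := fun k => natDegree_pow_le_of_le k hd3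
    have e4 : ∀ k, (a₄ ^ k).natDegree ≤ k * (4 * n) := fun k => natDegree_pow_le_of_le k ha4
    refine natDegree_add_le_of_degree_le (natDegree_add_le_of_degree_le
      (natDegree_add_le_of_degree_le (natDegree_add_le_of_degree_le ?_ ?_) ?_) ?_) ?_
    · exact (natDegree_mul_le_of_le (natDegree_mul_le_of_le (e1 5) hd3) ha4).trans (by omega)
    · exact (natDegree_mul_le_of_le (natDegree_mul_le_of_le (e1 4) hd2) (e3 2)).trans (by omega)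
    · exact (natDegree_mul_le_of_le (e1 4) (e4 2)).trans (by omega)
    · exact (natDegree_mul_le_of_le (e1 3) (e3 3)).trans (by omega)
    · exact (e3 4).trans (by omega)
  · rintro a₄ a₄' ⟨u, hu⟩
    simp only
    rw [hdiff, hu]
    exact ⟨u ^ 2 + a₃ * u, by ring⟩
  · intro _ a₄ a₄' h
    simp only at h
    rw [hdiff, show a₁ ^ 6 = a₁ ^ 4 * a₁ ^ 2 by ring, mul_dvd_mul_iff_left (pow_ne_zero 4 ha)] at h
    exact CL2_dvd ha h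
  · intro a₄ ha4 a₆ ha6
    rw [mem_Pol] at ha4 ha6
    have hc4 : (WeierstrassCurve.mk a₁ a₂ a₃ a₄ a₆).c₄ = a₁ ^ 4 := by
      simp only [WeierstrassCurve.c₄, WeierstrassCurve.b₂, WeierstrassCurve.b₄]
      linear_combination (4*a₁^2*a₂ -12*a₁*a₃ +8*a₂^2 -24*a₄) * h2
    have hco : (a₁ ^ 4).coeff (4 * n) ≠ 0 := by
      rw [← hd1, coeff_pow_mul_natDegree]
      exact pow_ne_zero 4 (leadingCoeff_ne_zero.2 ha)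
    have hcop2 : IsCoprime (a₁ ^ 4) (WeierstrassCurve.mk a₁ a₂ a₃ a₄ a₆).Δ ↔ IsCoprime a₁ a₃ := by
      rw [IsCoprime.pow_left_iff (by norm_num : 0 < 4), hΔ, isCoprime_comm, ← hcop a₄,
        show a₁ ^ 6 * a₆ = a₁ * (a₁ ^ 5 * a₆) by ring, add_comm,
        IsCoprime.add_mul_left_left_iff]
    simp only [Fam, Set.mem_ofPred_eq, hc4]
    constructor
    · rintro ⟨_, _, _, _, _, h, _⟩
      exact hcop2.1 h
    · intro h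
      exact ⟨hd1.le, hd2, hd3, ha4, ha6, hcop2.2 h, hco⟩

end Pool.RN
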