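import Pool.Agent.H48.RN.Stmts3

/-!
# Project RN: CL3, the discriminant in characteristic 3
-/

set_option autoImplicit false
set_option linter.unusedSectionVars false

namespace Pool.RN

open Polynomial

/-- Dividing by the greatest common divisor. -/
theorem CL3_gcd {F : Type} [Field F] {a w : F[X]} (ha : a ≠ 0) :
    ∃ d a' w' : F[X], d ≠ 0 ∧ IsCoprime a' w' ∧ a = d * a' ∧ w = d * w' := by
  classical
  obtain ⟨a', h1⟩ := EuclideanDomain.gcd_dvd_left a w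
  obtain ⟨w', h2⟩ := EuclideanDomain.gcd_dvd_right a w
  have h3 := EuclideanDomain.gcd_eq_gcd_ab a w
  have hd : EuclideanDomain.gcd a w ≠ 0 := fun h => ha (EuclideanDomain.gcd_eq_zero_iff.1 h).1
  generalize EuclideanDomain.gcd a w = d at h1 h2 h3 hd
  generalize EuclideanDomain.gcdA a w = x at h3
  generalize EuclideanDomain.gcdB a w = y at h3
  refine ⟨d, a', w', hd, ⟨x, y, ?_⟩, h1, h2⟩
  apply mul_left_cancel₀ hd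
  calc d * (x * a' + y * w') = (d * a') * x + (d * w') * y := by ring
    _ = a * x + w * y := by rw [← h1, ← h2]
    _ = d * 1 := by rw [← h3, mul_one]

theorem CL3_dvd {F : Type} [Field F] {a w c : F[X]} (ha : a ≠ 0)
    (h : a ^ 3 ∣ a ^ 2 * w * c - w ^ 3) : a ∣ w := by
  obtain ⟨d, a', w', hd0, hu, h1, h2⟩ := CL3_gcd (w := w) ha
  have h3 : a' ^ 3 ∣ a' ^ 2 * w' * c - w' ^ 3 := by
    have h4 : d ^ 3 * a' ^ 3 ∣ d ^ 3 * (a' ^ 2 * w' * c - w' ^ 3) := by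
      have h5 : d ^ 3 * a' ^ 3 = a ^ 3 := by rw [h1]; ring
      have h6 : d ^ 3 * (a' ^ 2 * w' * c - w' ^ 3) = a ^ 2 * w * c - w ^ 3 := by
        rw [h1, h2]
        ring
      rw [h5, h6]
      exact h
    exact (mul_dvd_mul_iff_left (pow_ne_zero 3 hd0)).1 h4
  have h7 : a' ∣ w' ^ 3 := by
    have h8 : a' ∣ a' ^ 2 * w' * c - w' ^ 3 := (dvd_pow_self a' three_ne_zero).trans h3
    have h9 : a' ^ 2 * w' * c - w' ^ 3 = a' * (a' * w' * c) - w' ^ 3 := by ring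
    rw [h9] at h8
    exact (dvd_sub_right (Dvd.intro _ rfl)).1 h8
  have h9 : IsUnit a' := (hu.pow_right (n := 3)).isUnit_of_dvd' (dvd_refl _) h7
  rw [h1, h2]
  exact mul_dvd_mul_left d (h9.dvd)

theorem CL3_sub {F : Type} [Field F] {f g : F[X]} {m : ℕ} (hf : f.natDegree ≤ m)
    (hg : g.natDegree ≤ m) : (f - g).natDegree ≤ m :=
  (natDegree_sub_le_of_le hf hg).trans (max_self m).le

theorem s_CL3 (F : Type) [Field F] [Fintype F] : S_CL3 F := by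
  intro h3F n a₁ a₂ a₃ hn hd1 hd2 hd3 hde
  have h3 : (3 : F[X]) = 0 := by
    have := congrArg (C : F → F[X]) h3F
    rwa [map_ofNat, map_zero] at this
  have he : a₁ ^ 2 + a₂ ≠ 0 := by
    intro h
    rw [h] at hde
    simp at hde
    omega
  have hΔ : ∀ a₄ a₆ : F[X], (WeierstrassCurve.mk a₁ a₂ a₃ a₄ a₆).Δ = -(a₁ ^ 2 + a₂) ^ 3 * a₆ +
      ((a₁ ^ 2 + a₂) ^ 2 * (a₁ * a₃ * a₄ - a₂ * a₃ ^ 2 + a₄ ^ 2) + (a₁ * a₃ - a₄) ^ 3) := by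
    intro a₄ a₆
    simp only [WeierstrassCurve.Δ, WeierstrassCurve.b₂, WeierstrassCurve.b₄, WeierstrassCurve.b₆,
      WeierstrassCurve.b₈]
    linear_combination (-3*a₁^4*a₂*a₆ +2*a₁^3*a₂*a₃*a₄ +12*a₁^3*a₃*a₆ -2*a₁^2*a₂^2*a₃^2
      -15*a₁^2*a₂^2*a₆ +2*a₁^2*a₂*a₄^2 -9*a₁^2*a₃^2*a₄ +24*a₁^2*a₄*a₆ +5*a₁*a₂^2*a₃*a₄
      +12*a₁*a₂*a₃^3 +48*a₁*a₂*a₃*a₆ -33*a₁*a₃*a₄^2 -5*a₂^3*a₃^2 -21*a₂^3*a₆ +5*a₂^2*a₄^2
      +24*a₂*a₃^2*a₄ +96*a₂*a₄*a₆ -9*a₃^4 -72*a₃^2*a₆ -21*a₄^3 -144*a₆^2) * h3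
  have hcop : ∀ a₄ : F[X], IsCoprime ((a₁ ^ 2 + a₂) ^ 2 * (a₁ * a₃ * a₄ - a₂ * a₃ ^ 2 + a₄ ^ 2) +
      (a₁ * a₃ - a₄) ^ 3) (a₁ ^ 2 + a₂) ↔ IsCoprime (a₁ * a₃ - a₄) (a₁ ^ 2 + a₂) := by
    intro a₄
    have h4 : (a₁ ^ 2 + a₂) ^ 2 * (a₁ * a₃ * a₄ - a₂ * a₃ ^ 2 + a₄ ^ 2) + (a₁ * a₃ - a₄) ^ 3 =
        (a₁ * a₃ - a₄) ^ 3 + (a₁ ^ 2 + a₂) *
          ((a₁ ^ 2 + a₂) * (a₁ * a₃ * a₄ - a₂ * a₃ ^ 2 + a₄ ^ 2)) := by ring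
    rw [h4, IsCoprime.add_mul_left_left_iff, IsCoprime.pow_left_iff (by norm_num : 0 < 3)]
  have hdiff : ∀ a₄ a₄' : F[X],
      ((a₁ ^ 2 + a₂) ^ 2 * (a₁ * a₃ * a₄ - a₂ * a₃ ^ 2 + a₄ ^ 2) + (a₁ * a₃ - a₄) ^ 3) -
      ((a₁ ^ 2 + a₂) ^ 2 * (a₁ * a₃ * a₄' - a₂ * a₃ ^ 2 + a₄' ^ 2) + (a₁ * a₃ - a₄') ^ 3) =
      (a₁ ^ 2 + a₂) ^ 2 * (a₄ - a₄') * (a₁ * a₃ + a₄ + a₄') - (a₄ - a₄') ^ 3 := by
    intro a₄ a₄'
    linear_combination ((a₁ * a₃ - a₄') * (a₄ - a₄') * (a₄ - a₁ * a₃)) * h3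
  refine ⟨fun a₄ => (a₁ ^ 2 + a₂) ^ 2 * (a₁ * a₃ * a₄ - a₂ * a₃ ^ 2 + a₄ ^ 2) +
    (a₁ * a₃ - a₄) ^ 3, ?_, hΔ, hcop, ?_, ?_, ?_⟩
  · intro a₄ ha4
    rw [mem_Pol] at ha4
    have e0 : ((a₁ ^ 2 + a₂) ^ 2).natDegree ≤ 2 * (2 * n) := natDegree_pow_le_of_le 2 hde.le
    have e3 : ∀ k, (a₃ ^ k).natDegree ≤ k * (3 * n) := fun k => natDegree_pow_le_of_le k hd3
    have e4 : ∀ k, (a₄ ^ k).natDegree ≤ k * (4 * n) := fun k => natDegree_pow_le_of_le k ha4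
    have e5 : (a₁ * a₃ * a₄ - a₂ * a₃ ^ 2 + a₄ ^ 2).natDegree ≤ 8 * n := by
      refine natDegree_add_le_of_degree_le (CL3_sub ?_ ?_) ?_
      · exact (natDegree_mul_le_of_le (natDegree_mul_le_of_le hd1 hd3) ha4).trans (by omega)
      · exact (natDegree_mul_le_of_le hd2 (e3 2)).trans (by omega)
      · exact (e4 2).trans (by omega)
    have e6 : (a₁ * a₃ - a₄).natDegree ≤ 4 * n :=
      CL3_sub ((natDegree_mul_le_of_le hd1 hd3).trans (by omega)) ha4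
    refine natDegree_add_le_of_degree_le ?_ ?_
    · exact (natDegree_mul_le_of_le e0 e5).trans (by omega)
    · exact (natDegree_pow_le_of_le 3 e6).trans (by omega)
  · rintro a₄ a₄' ⟨u, hu⟩
    simp only
    rw [hdiff, hu]
    exact ⟨u * (a₁ * a₃ + a₄ + a₄') - u ^ 3, by ring⟩
  · intro a₄ a₄' h
    simp only at h
    rw [hdiff] at h
    exact CL3_dvd he h
  · intro a₄ ha4 a₆ ha6
    rw [mem_Pol] at ha4 ha6
    have hc4 : (WeierstrassCurve.mk a₁ a₂ a₃ a₄ a₆).c₄ = (a₁ ^ 2 + a₂) ^ 2 := by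
      simp only [WeierstrassCurve.c₄, WeierstrassCurve.b₂, WeierstrassCurve.b₄]
      linear_combination (2*a₁^2*a₂ -8*a₁*a₃ +5*a₂^2 -16*a₄) * h3
    have hco : ((a₁ ^ 2 + a₂) ^ 2).coeff (4 * n) ≠ 0 := by
      rw [show 4 * n = 2 * (2 * n) by ring, ← hde, coeff_pow_mul_natDegree]
      exact pow_ne_zero 2 (leadingCoeff_ne_zero.2 he)
    have hcop2 : IsCoprime ((a₁ ^ 2 + a₂) ^ 2) (WeierstrassCurve.mk a₁ a₂ a₃ a₄ a₆).Δ ↔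
        IsCoprime (a₁ * a₃ - a₄) (a₁ ^ 2 + a₂) := by
      rw [IsCoprime.pow_left_iff (by norm_num : 0 < 2), hΔ, isCoprime_comm, ← hcop a₄,
        show -(a₁ ^ 2 + a₂) ^ 3 * a₆ = (a₁ ^ 2 + a₂) * (-(a₁ ^ 2 + a₂) ^ 2 * a₆) by ring, add_comm,
        IsCoprime.add_mul_left_left_iff]
    simp only [Fam, Set.mem_ofPred_eq, hc4]
    constructor
    · rintro ⟨_, _, _, _, _, h, _⟩
      exact hcop2.1 h
    · intro h
      exact ⟨hd1, hd2, hd3, ha4, ha6, hcop2.2 h, hco⟩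

end Pool.RN
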